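import Pool.Agent.Helper92.Ru.GoalsH

/-!
# Packet AuxCoeff (H3) of MP_d1d051_nt: house of the coefficients of a substituted monomial
-/

set_option autoImplicit false

open NumberField MvPolynomial

namespace Pool.Agent.Helper19.Ru

open Pool.Agent.Helper92.Ru

variable {k : Type} [Field k] [NumberField k] {σ : Type}

/-- the sum of the houses of the coefficients of `f` is at most `B` -/
def Bd (f : MvPolynomial σ (𝓞 k)) (B : ℝ) : Prop :=
  ∀ s : Finset (σ →₀ ℕ), ∑ K ∈ s, house ((coeff K f : 𝓞 k) : k) ≤ B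

theorem house_zero' : house (0 : k) = 0 := by
  simp [house]

theorem house_one' : house (1 : k) = 1 := by
  have h := house_intCast (K := k) 1
  simpa using h

theorem Bd.add {f g : MvPolynomial σ (𝓞 k)} {A B : ℝ} (hf : Bd f A) (hg : Bd g B) :
    Bd (f + g) (A + B) := by
  intro s
  calc ∑ K ∈ s, house ((coeff K (f + g) : 𝓞 k) : k)
      ≤ ∑ K ∈ s, (house ((coeff K f : 𝓞 k) : k) + house ((coeff K g : 𝓞 k) : k)) := by
        apply Finset.sum_le_sum
        intro K _
        rw [coeff_add]
        push_cast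
        exact house_add_le _ _
    _ = ∑ K ∈ s, house ((coeff K f : 𝓞 k) : k) + ∑ K ∈ s, house ((coeff K g : 𝓞 k) : k) :=
        Finset.sum_add_distrib
    _ ≤ A + B := add_le_add (hf s) (hg s)

theorem Bd.zero : Bd (0 : MvPolynomial σ (𝓞 k)) 0 := by
  intro s
  simp [house_zero']

theorem Bd.sum {α : Type} (t : Finset α) (f : α → MvPolynomial σ (𝓞 k)) (B : α → ℝ)
    (h : ∀ a ∈ t, Bd (f a) (B a)) : Bd (∑ a ∈ t, f a) (∑ a ∈ t, B a) := by
  classical
  induction t using Finset.induction_on with
  | empty => simpa using (Bd.zero (k := k) (σ := σ))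
  | insert a t ha ih =>
    rw [Finset.sum_insert ha, Finset.sum_insert ha]
    exact (h a (by simp)).add (ih (fun b hb => h b (by simp [hb])))

theorem Bd.mono {f : MvPolynomial σ (𝓞 k)} {A B : ℝ} (hf : Bd f A) (h : A ≤ B) : Bd f B :=
  fun s => (hf s).trans h

theorem Bd.nonneg {f : MvPolynomial σ (𝓞 k)} {A : ℝ} (hf : Bd f A) : 0 ≤ A := by
  simpa using hf ∅

theorem Bd.monomial_mul {g : MvPolynomial σ (𝓞 k)} {B : ℝ} (hg : Bd g B) (K : σ →₀ ℕ)
    (c : 𝓞 k) : Bd (monomial K c * g) (house (c : k) * B) := by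
  classical
  intro s
  have h1 : ∑ L ∈ s, house ((coeff L (monomial K c * g) : 𝓞 k) : k) =
      ∑ L ∈ s.filter (fun L => K ≤ L), house ((c * coeff (L - K) g : 𝓞 k) : k) := by
    rw [Finset.sum_filter]
    apply Finset.sum_congr rfl
    intro L _
    rw [coeff_monomial_mul']
    split_ifs with h
    · rfl
    · simp [house_zero']
  rw [h1]
  calc ∑ L ∈ s.filter (fun L => K ≤ L), house ((c * coeff (L - K) g : 𝓞 k) : k)
      ≤ ∑ L ∈ s.filter (fun L => K ≤ L),
          house (c : k) * house ((coeff (L - K) g : 𝓞 k) : k) := by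
        apply Finset.sum_le_sum
        intro L _
        push_cast
        exact house_mul_le _ _
    _ = house (c : k) * ∑ L ∈ s.filter (fun L => K ≤ L),
          house ((coeff (L - K) g : 𝓞 k) : k) := by rw [Finset.mul_sum]
    _ = house (c : k) * ∑ L ∈ (s.filter (fun L => K ≤ L)).image (fun L => L - K),
          house ((coeff L g : 𝓞 k) : k) := by
        rw [Finset.sum_image]
        intro L hL L' hL' hLL
        have e1 : K ≤ L := (Finset.mem_filter.1 hL).2
        have e2 : K ≤ L' := (Finset.mem_filter.1 hL').2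
        have hLL' : L - K = L' - K := hLL
        calc L = L - K + K := (tsub_add_cancel_of_le e1).symm
          _ = L' - K + K := by rw [hLL']
          _ = L' := tsub_add_cancel_of_le e2
    _ ≤ house (c : k) * B := mul_le_mul_of_nonneg_left (hg _) (house_nonneg _)

theorem Bd.one : Bd (1 : MvPolynomial σ (𝓞 k)) 1 := by
  classical
  intro s
  calc ∑ K ∈ s, house ((coeff K (1 : MvPolynomial σ (𝓞 k)) : 𝓞 k) : k)
      = ∑ K ∈ s, (if 0 = K then (1 : ℝ) else 0) := by
        apply Finset.sum_congr rfl
        intro K _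
        rw [coeff_one]
        split_ifs with h
        · simp [house_one']
        · simp [house_zero']
    _ ≤ 1 := by
        rw [Finset.sum_ite_eq]
        split_ifs <;> simp

/-- H3: house of the coefficients of a substituted monomial. -/
theorem AuxCoeff_holds : AuxCoeff := by
  intro k _ _ m ι _ _ _ M a0 ha0 hM J K
  classical
  set N : ℝ := (Fintype.card ι : ℝ) with hN
  have hN0 : 0 ≤ N := Nat.cast_nonneg _
  let f : Fin m × ι → MvPolynomial (Fin m × ι) (𝓞 k) :=
    fun p => ∑ j, C (M p.1 p.2 j) * X (p.1, j)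
  have step : ∀ (p : Fin m × ι) (g : MvPolynomial (Fin m × ι) (𝓞 k)) (B : ℝ), Bd g B →
      Bd (f p * g) (N * a0 * B) := by
    intro p g B hg
    have h1 : f p * g = ∑ j, (monomial (Finsupp.single (p.1, j) 1) (M p.1 p.2 j)) * g := by
      show (∑ j, C (M p.1 p.2 j) * X (p.1, j)) * g = _
      rw [Finset.sum_mul]
      apply Finset.sum_congr rfl
      intro j _
      rw [C_mul_X_eq_monomial]
    rw [h1]
    have h2 := Bd.sum Finset.univ
      (fun j => (monomial (Finsupp.single (p.1, j) 1) (M p.1 p.2 j)) * g)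
      (fun j => a0 * B) (fun j _ => (hg.monomial_mul _ _).mono
        (mul_le_mul_of_nonneg_right (hM p.1 p.2 j) hg.nonneg))
    refine h2.mono (le_of_eq ?_)
    rw [Finset.sum_const, Finset.card_univ, nsmul_eq_mul]
    ring
  have stepn : ∀ (p : Fin m × ι) (n : ℕ) (g : MvPolynomial (Fin m × ι) (𝓞 k)) (B : ℝ), Bd g B →
      Bd (f p ^ n * g) ((N * a0) ^ n * B) := by
    intro p n
    induction n with
    | zero => intro g B hg; simpa using hg
    | succ n ih =>
      intro g B hg
      have h := step p _ _ (ih g B hg)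
      have e1 : f p ^ (n + 1) * g = f p * (f p ^ n * g) := by ring
      have e2 : (N * a0) ^ (n + 1) * B = N * a0 * ((N * a0) ^ n * B) := by ring
      rw [e1, e2]
      exact h
  have hs : ∀ s : Finset (Fin m × ι), Bd (∏ p ∈ s, f p ^ J p) ((N * a0) ^ (∑ p ∈ s, J p)) := by
    intro s
    induction s using Finset.induction_on with
    | empty => simpa using (Bd.one (k := k) (σ := Fin m × ι))
    | insert a s ha ih =>
      rw [Finset.prod_insert ha, Finset.sum_insert ha, pow_add]
      exact stepn a (J a) _ _ ih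
  have hsub : subM M (monomial J 1) = ∏ p, f p ^ J p := by
    show aeval (fun p : Fin m × ι => ∑ j, C (M p.1 p.2 j) * X (p.1, j)) (monomial J (1 : 𝓞 k)) = _
    rw [aeval_monomial, map_one, one_mul, Finsupp.prod_fintype]
    intro i
    simp
  rw [hsub]
  have h := hs Finset.univ {K}
  simpa using h

end Pool.Agent.Helper19.Ru
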